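import Pool.Agent.Lib.MP_b5021c_nt.IfaceK1

/-!
# MP_b5021c_nt, module DEC

Partial fractions `Y/Q = c/(1 - θ z) + h` with absolutely summable `h`.
-/

namespace Pool.Agent.MP_b5021c_nt.H05

open Polynomial Filter Topology

/-- Absolutely summable coefficients. -/
def Sum1 (f : PowerSeries ℂ) : Prop := Summable fun n => ‖PowerSeries.coeff n f‖

/-- Value on the closed disc. -/
noncomputable def Sv (f : PowerSeries ℂ) (z : ℂ) : ℂ := ∑' n, PowerSeries.coeff n f * z ^ n

theorem sum1_mul {f g : PowerSeries ℂ} (hf : Sum1 f) (hg : Sum1 g) : Sum1 (f * g) := by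
  have := summable_norm_sum_mul_antidiagonal_of_summable_norm hf hg
  refine this.congr fun n => ?_
  rw [PowerSeries.coeff_mul]

theorem sum1_smul {f : PowerSeries ℂ} {z : ℂ} (hz : ‖z‖ ≤ 1) (hf : Sum1 f) :
    Summable fun n => ‖PowerSeries.coeff n f * z ^ n‖ := by
  refine Summable.of_nonneg_of_le (fun n => norm_nonneg _) (fun n => ?_) hf
  rw [norm_mul, norm_pow]
  exact mul_le_of_le_one_right (norm_nonneg _) (pow_le_one₀ (norm_nonneg _) hz)

theorem sv_mul {f g : PowerSeries ℂ} {z : ℂ} (hz : ‖z‖ ≤ 1) (hf : Sum1 f) (hg : Sum1 g) :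
    Sv (f * g) z = Sv f z * Sv g z := by
  unfold Sv
  rw [tsum_mul_tsum_eq_tsum_sum_antidiagonal_of_summable_norm (sum1_smul hz hf) (sum1_smul hz hg)]
  refine tsum_congr fun n => ?_
  rw [PowerSeries.coeff_mul, Finset.sum_mul]
  refine Finset.sum_congr rfl fun kl hkl => ?_
  have hkl' : kl.1 + kl.2 = n := by simpa using hkl
  rw [← hkl', pow_add]
  ring

theorem sum1_poly (p : ℂ[X]) : Sum1 (p : PowerSeries ℂ) := by
  refine summable_of_ne_finset_zero (s := Finset.range (p.natDegree + 1)) fun n hn => ?_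
  rw [Polynomial.coeff_coe, Polynomial.coeff_eq_zero_of_natDegree_lt]
  · simp
  · simpa using hn

theorem sv_poly (p : ℂ[X]) (z : ℂ) : Sv (p : PowerSeries ℂ) z = p.eval z := by
  unfold Sv
  rw [tsum_eq_sum (s := Finset.range (p.natDegree + 1)), Polynomial.eval_eq_sum_range]
  · refine Finset.sum_congr rfl fun n _ => ?_
    rw [Polynomial.coeff_coe]
  · intro n hn
    rw [Polynomial.coeff_coe, Polynomial.coeff_eq_zero_of_natDegree_lt]
    · simp
    · simpa using hn

theorem sum1_geo {r : ℂ} (hr : ‖r‖ < 1) : Sum1 (PowerSeries.mk fun n => r ^ n) := by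
  have : Summable fun n : ℕ => ‖r‖ ^ n := summable_geometric_of_lt_one (norm_nonneg _) hr
  refine this.congr fun n => ?_
  rw [PowerSeries.coeff_mk, norm_pow]

theorem geo_mul {R : Type} [CommRing R] (r : R) :
    (PowerSeries.mk fun n => r ^ n) * (1 - PowerSeries.C r * PowerSeries.X) = 1 := by
  ext n
  rw [mul_sub, mul_one, map_sub, ← mul_assoc, mul_comm _ (PowerSeries.C r), mul_assoc,
    PowerSeries.coeff_C_mul]
  cases n with
  | zero => simp
  | succ n =>
    rw [PowerSeries.coeff_succ_mul_X, PowerSeries.coeff_mk, PowerSeries.coeff_mk]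
    simp [pow_succ, mul_comm]

/-- A quotient by a polynomial without zeros in the closed disc has absolutely summable coefficients. -/
theorem sum1_quot : ∀ (n : ℕ) (g : ℂ[X]), g.natDegree = n → (∀ z : ℂ, ‖z‖ ≤ 1 → g.eval z ≠ 0) →
    ∀ (f : PowerSeries ℂ), Sum1 (f * (g : PowerSeries ℂ)) → Sum1 f := by
  intro n
  induction n with
  | zero =>
    intro g hg hz f hf
    have h1 : g = C (g.coeff 0) := Polynomial.eq_C_of_natDegree_eq_zero hg
    have h2 : g.coeff 0 ≠ 0 := by
      intro h3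
      apply hz 0 (by simp)
      rw [h1, h3]
      simp
    have h4 : f = (f * (g : PowerSeries ℂ)) * ((C (g.coeff 0)⁻¹ : ℂ[X]) : PowerSeries ℂ) := by
      rw [mul_assoc, ← Polynomial.coe_mul]
      have h5 : g * C (g.coeff 0)⁻¹ = 1 := by
        nth_rewrite 1 [h1]
        rw [← C_mul, mul_inv_cancel₀ h2, C_1]
      rw [h5, Polynomial.coe_one, mul_one]
    rw [h4]
    exact sum1_mul hf (sum1_poly _)
  | succ n ih =>
    intro g hg hz f hf
    have hdeg : g.degree ≠ 0 := by
      intro h1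
      have := Polynomial.natDegree_eq_of_degree_eq_some h1
      rw [hg] at this
      exact absurd this (Nat.succ_ne_zero n)
    obtain ⟨r, hr⟩ := IsAlgClosed.exists_root g hdeg
    obtain ⟨g1, hg1⟩ := Polynomial.dvd_iff_isRoot.2 hr
    have hr1 : 1 < ‖r‖ := by
      by_contra h1
      exact hz r (not_lt.1 h1) hr
    have hr0 : r ≠ 0 := by
      intro h1
      rw [h1, norm_zero] at hr1
      linarith
    have hg0 : g ≠ 0 := by
      rintro rfl
      simp at hg
    have hg10 : g1 ≠ 0 := by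
      rintro rfl
      rw [mul_zero] at hg1
      exact hg0 hg1
    have hd1 : g1.natDegree = n := by
      rw [hg1, Polynomial.natDegree_mul (Polynomial.X_sub_C_ne_zero r) hg10,
        Polynomial.natDegree_X_sub_C] at hg
      omega
    have hz1 : ∀ z : ℂ, ‖z‖ ≤ 1 → g1.eval z ≠ 0 := by
      intro z hz2 h1
      apply hz z hz2
      rw [hg1, Polynomial.eval_mul, h1, mul_zero]
    -- f (X - r) g1 is summable, so f (X - r) is
    have h1 : Sum1 (f * ((X - C r : ℂ[X]) : PowerSeries ℂ)) := by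
      apply ih g1 hd1 hz1
      rw [mul_assoc, ← Polynomial.coe_mul, ← hg1]
      exact hf
    -- multiply by the geometric series
    have h2 : f = (f * ((X - C r : ℂ[X]) : PowerSeries ℂ)) *
        ((PowerSeries.mk fun n => (r⁻¹) ^ n) * ((C (-r⁻¹) : ℂ[X]) : PowerSeries ℂ)) := by
      have h3 : ((X - C r : ℂ[X]) : PowerSeries ℂ) * ((C (-r⁻¹) : ℂ[X]) : PowerSeries ℂ)
          = 1 - PowerSeries.C r⁻¹ * PowerSeries.X := by
        rw [Polynomial.coe_sub, Polynomial.coe_X, Polynomial.coe_C, Polynomial.coe_C]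
        have h4 : PowerSeries.C r * PowerSeries.C (-r⁻¹) = (-1 : PowerSeries ℂ) := by
          rw [← map_mul]
          have : r * -r⁻¹ = -1 := by
            rw [mul_neg, mul_inv_cancel₀ hr0]
          rw [this]
          simp
        have h5 : (PowerSeries.C (-r⁻¹) : PowerSeries ℂ) = -PowerSeries.C r⁻¹ := by
          rw [map_neg]
        rw [sub_mul, h4, h5]
        ring
      calc f = f * 1 := (mul_one f).symm
        _ = f * ((PowerSeries.mk fun n => (r⁻¹) ^ n) * (1 - PowerSeries.C r⁻¹ * PowerSeries.X)) := by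
          rw [geo_mul]
        _ = _ := by
          rw [← h3]
          ring
    rw [h2]
    apply sum1_mul h1
    apply sum1_mul _ (sum1_poly _)
    apply sum1_geo
    rw [norm_inv]
    exact inv_lt_one_of_one_lt₀ hr1

/-- **DEC.** -/
theorem decS : DecS := by
  intro Q Y θ a hQ ha
  obtain ⟨hθ, hQ0, g, hg, hgz⟩ := hQ
  have hθ0 : θ ≠ 0 := by positivity
  have hθi : θ⁻¹ < 1 := inv_lt_one_of_one_lt₀ hθ
  have hθi0 : 0 < θ⁻¹ := by positivity
  set QR : ℝ[X] := Q.map (Int.castRingHom ℝ) with hQR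
  set YR : ℝ[X] := Y.map (Int.castRingHom ℝ) with hYR
  have hQC : QR.map Complex.ofRealHom = Q.map (Int.castRingHom ℂ) := by
    rw [hQR, Polynomial.map_map]
    congr 1
  have hYC : YR.map Complex.ofRealHom = Y.map (Int.castRingHom ℂ) := by
    rw [hYR, Polynomial.map_map]
    congr 1
  -- the factorisation is real
  have key : ∀ p : ℝ[X], p.eval θ⁻¹ = 0 → ∃ q : ℝ[X], p = (1 - C θ * X) * q := by
    intro p hp
    obtain ⟨q, hq⟩ := Polynomial.dvd_iff_isRoot.2 hp
    refine ⟨C (-θ⁻¹) * q, ?_⟩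
    rw [hq]
    have h1 : (X - C θ⁻¹ : ℝ[X]) = (1 - C θ * X) * C (-θ⁻¹) := by
      have h2 : (C θ * C (-θ⁻¹) : ℝ[X]) = -1 := by
        rw [← C_mul, mul_neg, mul_inv_cancel₀ hθ0]
        simp
      have h3 : (C (-θ⁻¹) : ℝ[X]) = -C θ⁻¹ := by rw [C_neg]
      linear_combination X * h2 - h3
    rw [h1]
    ring
  have hroot : QR.eval θ⁻¹ = 0 := by
    have h1 : (Q.map (Int.castRingHom ℂ)).eval (((θ⁻¹ : ℝ)) : ℂ) = 0 := by
      rw [hg]
      simp only [eval_mul, eval_sub, eval_one, eval_C, eval_X]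
      have : (1 : ℂ) - (θ : ℂ) * ((θ⁻¹ : ℝ) : ℂ) = 0 := by
        rw [← Complex.ofReal_mul, mul_inv_cancel₀ hθ0]
        simp
      rw [this, zero_mul]
    rw [← hQC] at h1
    have h2 : (QR.map Complex.ofRealHom).eval (((θ⁻¹ : ℝ)) : ℂ) = ((QR.eval θ⁻¹ : ℝ) : ℂ) := by
      rw [Polynomial.eval_map]
      exact Polynomial.eval₂_at_apply Complex.ofRealHom θ⁻¹
    rw [h2] at h1
    exact_mod_cast h1
  obtain ⟨gR, hgR⟩ := key QR hroot
  have hlin : (1 - C (θ : ℂ) * X : ℂ[X]) ≠ 0 := by
    intro h1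
    have := congrArg (fun p : ℂ[X] => p.eval 0) h1
    simp at this
  have hgC : gR.map Complex.ofRealHom = g := by
    have h1 : (1 - C (θ : ℂ) * X : ℂ[X]) * gR.map Complex.ofRealHom = (1 - C (θ : ℂ) * X) * g := by
      rw [← hg, ← hQC, hgR]
      simp
    exact mul_left_cancel₀ hlin h1
  have hgR0 : gR.eval θ⁻¹ ≠ 0 := by
    intro h1
    apply hgz ((θ⁻¹ : ℝ) : ℂ)
    · rw [Complex.norm_real, Real.norm_eq_abs, abs_of_pos hθi0]
      exact hθi.le
    · rw [← hgC, Polynomial.eval_map]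
      have := Polynomial.eval₂_at_apply (p := gR) Complex.ofRealHom θ⁻¹
      rw [h1] at this
      simpa using this
  set c : ℝ := YR.eval θ⁻¹ / gR.eval θ⁻¹ with hc
  have hroot2 : (YR - C c * gR).eval θ⁻¹ = 0 := by
    simp only [eval_sub, eval_mul, eval_C]
    rw [hc, div_mul_cancel₀ _ hgR0, sub_self]
  obtain ⟨Y2, hY2⟩ := key _ hroot2
  -- the power series h
  set A : PowerSeries ℝ := PowerSeries.mk fun j => (a j : ℝ) with hA
  have hAQ : A * (QR : PowerSeries ℝ) = (YR : PowerSeries ℝ) := by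
    have h1 := congrArg (PowerSeries.map (Int.castRingHom ℝ)) ha
    rw [map_mul] at h1
    have h2 : PowerSeries.map (Int.castRingHom ℝ) (PowerSeries.mk a) = A := by
      ext n
      simp [hA]
    have h3 : ∀ p : ℤ[X], PowerSeries.map (Int.castRingHom ℝ) (p : PowerSeries ℤ)
        = ((p.map (Int.castRingHom ℝ) : ℝ[X]) : PowerSeries ℝ) := by
      intro p
      ext n
      simp
    rw [h2, h3, h3] at h1
    exact h1
  set H : PowerSeries ℝ := A - PowerSeries.C c * PowerSeries.mk (fun j => θ ^ j) with hH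
  have hlinR : ((1 - C θ * X : ℝ[X]) : PowerSeries ℝ) = 1 - PowerSeries.C θ * PowerSeries.X := by
    simp
  have hgeo := geo_mul (R := ℝ) θ
  have hHg : H * (gR : PowerSeries ℝ) = (Y2 : PowerSeries ℝ) := by
    have h0 : ((1 - C θ * X : ℝ[X]) : PowerSeries ℝ) ≠ 0 := by
      rw [hlinR]
      intro h1
      rw [h1, mul_zero] at hgeo
      exact zero_ne_one hgeo
    apply mul_left_cancel₀ h0
    have h1 : ((1 - C θ * X : ℝ[X]) : PowerSeries ℝ) * (Y2 : PowerSeries ℝ)
        = (YR : PowerSeries ℝ) - PowerSeries.C c * (gR : PowerSeries ℝ) := by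
      rw [← Polynomial.coe_mul, ← hY2, Polynomial.coe_sub, Polynomial.coe_mul, Polynomial.coe_C]
    have h2 : ((1 - C θ * X : ℝ[X]) : PowerSeries ℝ) * (gR : PowerSeries ℝ) = (QR : PowerSeries ℝ) := by
      rw [← Polynomial.coe_mul, ← hgR]
    rw [h1, hH]
    calc ((1 - C θ * X : ℝ[X]) : PowerSeries ℝ) *
          ((A - PowerSeries.C c * PowerSeries.mk (fun j => θ ^ j)) * (gR : PowerSeries ℝ))
        = A * (((1 - C θ * X : ℝ[X]) : PowerSeries ℝ) * (gR : PowerSeries ℝ))
          - PowerSeries.C c * (gR : PowerSeries ℝ) *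
            (PowerSeries.mk (fun j => θ ^ j) * ((1 - C θ * X : ℝ[X]) : PowerSeries ℝ)) := by ring
      _ = _ := by rw [h2, hAQ, hlinR, hgeo, mul_one]
  -- complex version
  set HC : PowerSeries ℂ := PowerSeries.map Complex.ofRealHom H with hHC
  have hHCg : HC * (g : PowerSeries ℂ) = ((Y2.map Complex.ofRealHom : ℂ[X]) : PowerSeries ℂ) := by
    have h1 := congrArg (PowerSeries.map Complex.ofRealHom) hHg
    rw [map_mul] at h1
    have h3 : ∀ p : ℝ[X], PowerSeries.map Complex.ofRealHom (p : PowerSeries ℝ)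
        = ((p.map Complex.ofRealHom : ℂ[X]) : PowerSeries ℂ) := by
      intro p
      ext n
      simp
    rw [h3, h3, hgC] at h1
    exact h1
  have hsum : Sum1 HC := by
    apply sum1_quot _ g rfl hgz
    rw [hHCg]
    exact sum1_poly _
  have hcoe : ∀ j, PowerSeries.coeff j HC = ((PowerSeries.coeff j H : ℝ) : ℂ) := by
    intro j
    rw [hHC, PowerSeries.coeff_map]
    rfl
  refine ⟨c, fun j => PowerSeries.coeff j H, ?_, ?_, ?_⟩
  · intro j
    simp [hH, hA]
  · refine hsum.congr fun j => ?_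
    rw [hcoe, Complex.norm_real, Real.norm_eq_abs]
  · intro z hz
    have h1 : Sv HC z * g.eval z = (Y2.map Complex.ofRealHom).eval z := by
      rw [← sv_poly g z, ← sv_mul hz.le hsum (sum1_poly g), hHCg, sv_poly]
    have h2 : Sv HC z = ∑' j, ((PowerSeries.coeff j H : ℝ) : ℂ) * z ^ j := by
      unfold Sv
      refine tsum_congr fun j => ?_
      rw [hcoe]
    rw [← h2]
    have h3 : pv Q z = (1 - θ * z) * g.eval z := by
      have h4 : pv Q z = (Q.map (Int.castRingHom ℂ)).eval z := by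
        rw [Polynomial.eval_map]
        rfl
      rw [h4, hg]
      simp
    have h4 : pv Y z = c * g.eval z + (1 - θ * z) * (Y2.map Complex.ofRealHom).eval z := by
      have h5 : pv Y z = (Y.map (Int.castRingHom ℂ)).eval z := by
        rw [Polynomial.eval_map]
        rfl
      have h6 : YR = C c * gR + (1 - C θ * X) * Y2 := by
        rw [← hY2]
        ring
      rw [h5, ← hYC, h6]
      simp [hgC]
    have h5 : (1 : ℂ) - θ * z ≠ 0 := by
      intro h6
      have h7 : (θ : ℂ) * z = 1 := by linear_combination -h6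
      have h8 := congrArg norm h7
      rw [norm_mul, hz, mul_one, Complex.norm_real, Real.norm_eq_abs, abs_of_pos (by linarith), norm_one] at h8
      linarith
    rw [h4, h3, ← h1]
    field_simp

end Pool.Agent.MP_b5021c_nt.H05
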