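import Pool.Agent.Lib.MP_b5021c_nt.IfaceK1

/-!
# MP_b5021c_nt, module REC

Only finitely many Pisot numbers below a bound are conjugate to their inverse.
-/

namespace Pool.Agent.MP_b5021c_nt.H05

open Polynomial Filter Topology

/-- Roots of the reversed polynomial. -/
theorem rev_iff {R K : Type} [CommRing R] [Field K] (i : R →+* K) (x : K) (hx : x ≠ 0) (f : R[X]) :
    eval₂ i x⁻¹ (reverse f) = 0 ↔ eval₂ i x f = 0 := by
  let _ := invertibleOfNonzero hx
  have h := Polynomial.eval₂_reverse_eq_zero_iff i x f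
  rwa [invOf_eq_inv] at h

/-- If a Pisot number is conjugate to its inverse, then `θ + 1/θ` is an integer. -/
theorem rec_int (θ : ℝ) (h : θ ∈ PS) (h0 : pv (minpoly ℤ θ) ((θ : ℂ)⁻¹) = 0) :
    ∃ n : ℤ, θ + θ⁻¹ = n := by
  obtain ⟨h1, hint, hconj⟩ := h
  set P := minpoly ℤ θ with hP
  have hmon : P.Monic := minpoly.monic hint
  have hθ0 : θ ≠ 0 := by positivity
  have hQ : P.map (algebraMap ℤ ℚ) = minpoly ℚ θ :=
    (minpoly.isIntegrallyClosed_eq_field_fractions' ℚ hint).symm
  have hintQ : IsIntegral ℚ θ := hint.tower_top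
  have hirr : Irreducible (minpoly ℚ θ) := minpoly.irreducible hintQ
  have hinv : aeval θ⁻¹ P = 0 := by
    have h2 : ((aeval θ⁻¹ P : ℝ) : ℂ) = 0 := by
      have h3 : aeval ((θ⁻¹ : ℝ) : ℂ) P = ((aeval θ⁻¹ P : ℝ) : ℂ) := by
        have := Polynomial.aeval_algebraMap_apply ℂ (θ⁻¹ : ℝ) P
        simpa using this
      rw [← h3]
      have h4 : ((θ⁻¹ : ℝ) : ℂ) = (θ : ℂ)⁻¹ := by push_cast; rfl
      rw [h4]
      exact h0
    exact_mod_cast h2
  have hθr : aeval θ P = 0 := minpoly.aeval ℤ θ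
  -- `minpoly ℚ θ` is also the minimal polynomial of the inverse
  have hrev : aeval θ P.reverse = 0 := by
    have h2 := rev_iff (algebraMap ℤ ℝ) θ⁻¹ (inv_ne_zero hθ0) P
    have h3 : eval₂ (algebraMap ℤ ℝ) θ⁻¹ P = 0 := by simpa [aeval_def] using hinv
    have h4 := h2.2 h3
    rw [inv_inv] at h4
    simpa [aeval_def] using h4
  have hdvd : P ∣ P.reverse := minpoly.isIntegrallyClosed_dvd hint hrev
  -- roots in the complex numbers
  have hcr : ∀ γ : ℂ, aeval γ P = 0 → γ = (θ : ℂ) ∨ γ = (θ : ℂ)⁻¹ := by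
    intro γ hγ
    by_cases hγθ : γ = (θ : ℂ)
    · exact Or.inl hγθ
    · right
      have hlt := hconj γ hγ hγθ
      have hγ0 : γ ≠ 0 := by
        intro hz
        rw [hz] at hγ
        -- P(0) = 0 is impossible as P is irreducible and θ ≠ 0
        have h5 : P.coeff 0 = 0 := by
          have h6 : aeval (0 : ℂ) P = ((P.coeff 0 : ℤ) : ℂ) := by
            rw [Polynomial.aeval_def, Polynomial.eval₂_at_zero]
            simp
          rw [h6] at hγ
          exact_mod_cast hγ
        have h7 : (minpoly ℚ θ).coeff 0 = 0 := by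
          rw [← hQ, Polynomial.coeff_map, h5]
          simp
        have h8 := (minpoly.coeff_zero_eq_zero hintQ).1 h7
        exact hθ0 h8
      have hrevγ : aeval γ P.reverse = 0 := by
        obtain ⟨R, hR⟩ := hdvd
        rw [hR, map_mul, hγ, zero_mul]
      have hinvγ : aeval γ⁻¹ P = 0 := by
        have h2 := rev_iff (algebraMap ℤ ℂ) γ⁻¹ (inv_ne_zero hγ0) P
        rw [inv_inv] at h2
        have := h2.1 (by simpa [aeval_def] using hrevγ)
        simpa [aeval_def] using this
      by_contra hne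
      have h9 : γ⁻¹ ≠ (θ : ℂ) := by
        intro h10
        apply hne
        rw [← h10, inv_inv]
      have h11 := hconj γ⁻¹ hinvγ h9
      rw [norm_inv] at h11
      have h12 : 0 < ‖γ‖ := norm_pos_iff.2 hγ0
      have h13 : 1 < ‖γ‖⁻¹ := (one_lt_inv₀ h12).2 hlt
      linarith
  -- the degree is at most two
  have hsep : (P.map (algebraMap ℤ ℂ)).Separable := by
    have h2 : (minpoly ℚ θ).Separable := hirr.separable
    have h3 : P.map (algebraMap ℤ ℂ) = (minpoly ℚ θ).map (algebraMap ℚ ℂ) := by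
      rw [← hQ, Polynomial.map_map]
      congr 1
    rw [h3]
    exact h2.map
  have hdeg : P.natDegree ≤ 2 := by
    have h2 : (P.map (algebraMap ℤ ℂ)).roots.Nodup := Polynomial.nodup_roots hsep
    have h3 : Multiset.card (P.map (algebraMap ℤ ℂ)).roots = P.natDegree := by
      have h4 := IsAlgClosed.card_roots_eq_natDegree (p := P.map (algebraMap ℤ ℂ))
      rw [h4, hmon.natDegree_map]
    have h5 : (P.map (algebraMap ℤ ℂ)).roots.toFinset ⊆ {(θ : ℂ), (θ : ℂ)⁻¹} := by
      intro γ hγ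
      rw [Multiset.mem_toFinset, Polynomial.mem_roots', Polynomial.IsRoot.def, Polynomial.eval_map] at hγ
      have h6 := hcr γ (by simpa [aeval_def] using hγ.2)
      simpa using h6
    have h7 := Finset.card_le_card h5
    rw [Multiset.toFinset_card_of_nodup h2, h3] at h7
    exact h7.trans Finset.card_le_two
  -- write P as a sum
  have hev : ∀ x : ℝ, aeval x P = (P.coeff 0 : ℝ) + P.coeff 1 * x + P.coeff 2 * x ^ 2 := by
    intro x
    rw [Polynomial.aeval_eq_sum_range' (n := 3) (by omega)]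
    simp [Finset.sum_range_succ]
  have e1 := hev θ
  have e2 := hev θ⁻¹
  rw [hθr] at e1
  rw [hinv] at e2
  have hcard : P.natDegree = 2 ∨ P.natDegree < 2 := by omega
  have hθinv : θ⁻¹ < 1 := inv_lt_one_of_one_lt₀ h1
  rcases hcard with h2 | h2
  · have h3 : P.coeff 2 = 1 := by
      rw [← h2]
      exact hmon.coeff_natDegree
    rw [h3] at e1 e2
    refine ⟨-P.coeff 1, ?_⟩
    push_cast
    push_cast at e1 e2
    have h4 : (θ - θ⁻¹) * (θ + θ⁻¹ + P.coeff 1) = 0 := by linear_combination e2 - e1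
    have h5 : θ - θ⁻¹ ≠ 0 := by
      intro h6
      linarith
    have h6 := (mul_eq_zero.1 h4).resolve_left h5
    linarith
  · exfalso
    have h3 : P.coeff 2 = 0 := Polynomial.coeff_eq_zero_of_natDegree_lt h2
    rw [h3] at e1 e2
    push_cast at e1 e2
    have h4 : (P.coeff 1 : ℝ) * (θ - θ⁻¹) = 0 := by linear_combination e2 - e1
    have h5 : θ - θ⁻¹ ≠ 0 := by
      intro h6
      linarith
    have h6 : (P.coeff 1 : ℝ) = 0 := (mul_eq_zero.1 h4).resolve_right h5
    have h7 : P.coeff 1 = 0 := by exact_mod_cast h6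
    have h8 : P.natDegree = 0 := by
      by_contra h9
      have h10 : P.natDegree = 1 := by omega
      have h11 : P.coeff 1 = 1 := by
        rw [← h10]
        exact hmon.coeff_natDegree
      rw [h7] at h11
      exact absurd h11 (by norm_num)
    have h9 : P = 1 := hmon.natDegree_eq_zero.1 h8
    exact minpoly.ne_one ℤ θ h9

/-- **REC.** -/
theorem recS : RecS := by
  intro B
  apply Set.Finite.of_finite_image (f := fun θ : ℝ => θ + θ⁻¹)
  · apply Set.Finite.subset ((Set.finite_Icc (0 : ℤ) ⌈B + 1⌉).image (fun n : ℤ => (n : ℝ)))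
    rintro x ⟨θ, ⟨hθ, hB, h0⟩, rfl⟩
    obtain ⟨n, hn⟩ := rec_int θ hθ h0
    refine ⟨n, ?_, by simp [hn]⟩
    have h1 := hθ.1
    have h2 : θ⁻¹ < 1 := inv_lt_one_of_one_lt₀ h1
    have h3 : 0 < θ⁻¹ := by positivity
    constructor
    · have : (0 : ℝ) < n := by rw [← hn]; linarith
      exact_mod_cast this.le
    · have h4 : (n : ℝ) ≤ B + 1 := by rw [← hn]; linarith
      have h5 : (n : ℝ) ≤ ⌈B + 1⌉ := h4.trans (Int.le_ceil _)
      exact_mod_cast h5
  · intro x hx y hy hxy
    have h1 := hx.1.1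
    have h2 := hy.1.1
    have h3 : x + x⁻¹ = y + y⁻¹ := hxy
    have hx0 : x ≠ 0 := by positivity
    have hy0 : y ≠ 0 := by positivity
    have h4 : (x - y) * (1 - (x * y)⁻¹) = 0 := by
      have : x⁻¹ - y⁻¹ = -(x - y) * (x * y)⁻¹ := by
        field_simp
        ring
      linear_combination h3 - this
    have h5 : 1 - (x * y)⁻¹ ≠ 0 := by
      have h6 : 1 < x * y := by nlinarith
      have := inv_lt_one_of_one_lt₀ h6
      intro h7
      linarith
    have := (mul_eq_zero.1 h4).resolve_right h5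
    linarith

end Pool.Agent.MP_b5021c_nt.H05
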